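import Pool.Agent.H95.Floq

set_option autoImplicit false

open Pool.Agent.H95.Floq

theorem Pool.Agent.Results.MP_61df98_mp.Singular.result :
    ∃ q : ℕ, 3 ≤ q ∧ Odd q ∧ ∃ a : Fin (q / 2) → ℂ, a ≠ 0 ∧
      (∀ f ∈ I q, MvPolynomial.eval a f = 0) ∧ 2 ≤ mult q a :=
  ⟨15, by norm_num, by decide, main⟩
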